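import Pool.Agent.BDA.FIN

set_option autoImplicit false

namespace Pool.Agent.Results.MP_4cb515_nt.AlmostAll

open Classical in
theorem result : ∀ ε : ℝ, 0 < ε → ∃ C : ℝ, ∀ x : ℕ, 1 ≤ x →
    ((((Finset.Icc 1 x).filter (fun n : ℕ => ∃ k : ℕ, 1 ≤ k ∧ (k : ℝ) ≤ (n : ℝ) ^ ((2 : ℝ) / 3) ∧
      (∀ p : ℕ, p.Prime → p ≤ k → ¬ p ∣ (n + k).choose k) ∧
      ((Real.log n) ^ 3 ≤ k ∨
        ∃ i ∈ Finset.Icc 1 k, ∀ p : ℕ, p.Prime → p ∣ n + i → p ≤ k))).card : ℕ) : ℝ) ≤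
      C * (x : ℝ) ^ ((2 : ℝ) / 3 + ε) := by
  intro ε hε
  obtain ⟨C, hC⟩ := Pool.Agent.BDA.almost_all ε hε
  refine ⟨C, fun x hx => ?_⟩
  have h := hC x hx
  unfold Pool.Agent.BDA.EX Pool.Agent.BDA.NoSmall at h
  exact h

end Pool.Agent.Results.MP_4cb515_nt.AlmostAll
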