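import Mathlib
import Pool.Agent.MP_4cb515_nt.Basic

set_option autoImplicit false

namespace Pool.Agent.Results.MP_4cb515_nt.DeficientProduct

open Finset Pool.Agent.MP_4cb515_nt

/-- The increasing pairs from `S`. -/
def pairs (S : Finset ℕ) : Finset (ℕ × ℕ) := (S ×ˢ S).filter (fun q => q.1 < q.2)

theorem sum_le (n p L : ℕ) (hp : p.Prime) (S : Finset ℕ)
    (hL : ∀ i ∈ S, (n + i).factorization p ≤ L) :
    ∑ i ∈ S, (n + i).factorization p ≤ L + ∑ q ∈ pairs S, (q.2 - q.1).factorization p := by
  induction S using Finset.induction_on_min_value (fun i => (n + i).factorization p) with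
  | empty => simp
  | insert a s has hmin ih =>
    rw [Finset.sum_insert has]
    rcases s.eq_empty_or_nonempty with rfl | ⟨j, hj⟩
    · simp only [Finset.sum_empty, add_zero]
      exact le_trans (hL a (by simp)) (Nat.le_add_right _ _)
    · have ih' := ih (fun i hi => hL i (Finset.mem_insert_of_mem hi))
      have haj : a ≠ j := by rintro rfl; exact has hj
      have hle := hmin j hj
      -- the pair formed by `a` and `j`
      obtain ⟨x, y, hxy, hx, hy, hor⟩ : ∃ x y, x < y ∧ x ∈ insert a s ∧ y ∈ insert a s ∧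
          ((x = a ∧ y = j) ∨ (x = j ∧ y = a)) := by
        rcases lt_or_gt_of_ne haj with h | h
        · exact ⟨a, j, h, by simp, by simp [hj], Or.inl ⟨rfl, rfl⟩⟩
        · exact ⟨j, a, h, by simp [hj], by simp, Or.inr ⟨rfl, rfl⟩⟩
      have hnot : (x, y) ∉ pairs s := by
        simp only [pairs, mem_filter, mem_product, not_and]
        intro h
        rcases hor with ⟨rfl, rfl⟩ | ⟨rfl, rfl⟩
        · exact absurd h.1 has
        · exact absurd h.2 has
      have hsub : insert (x, y) (pairs s) ⊆ pairs (insert a s) := by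
        intro q hq
        rw [mem_insert] at hq
        rcases hq with rfl | hq
        · simp only [pairs, mem_filter, mem_product]
          exact ⟨⟨hx, hy⟩, hxy⟩
        · simp only [pairs, mem_filter, mem_product] at hq ⊢
          exact ⟨⟨mem_insert_of_mem hq.1.1, mem_insert_of_mem hq.1.2⟩, hq.2⟩
      have h1 : ∑ q ∈ insert (x, y) (pairs s), (q.2 - q.1).factorization p ≤
          ∑ q ∈ pairs (insert a s), (q.2 - q.1).factorization p :=
        Finset.sum_le_sum_of_subset hsub
      rw [Finset.sum_insert hnot] at h1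
      have hd1 : p ^ ((n + a).factorization p) ∣ n + a := Nat.ordProj_dvd _ _
      have hd2 : p ^ ((n + a).factorization p) ∣ n + j :=
        (pow_dvd_pow p hle).trans (Nat.ordProj_dvd _ _)
      have hd3 : p ^ ((n + a).factorization p) ∣ y - x := by
        rcases hor with ⟨rfl, rfl⟩ | ⟨rfl, rfl⟩
        · have := Nat.dvd_sub hd2 hd1
          rwa [show n + y - (n + x) = y - x by omega] at this
        · have := Nat.dvd_sub hd1 hd2
          rwa [show n + y - (n + x) = y - x by omega] at this
      have h2 : (n + a).factorization p ≤ (y - x).factorization p :=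
        (hp.pow_dvd_iff_le_factorization (by omega)).1 hd3
      simp only at h1
      omega

theorem factorization_eq_zero (n k p i : ℕ) (hp : p.Prime) (hpk : ¬ p ≤ k)
    (h : smoothPart k (n + i) = n + i) : (n + i).factorization p = 0 := by
  have := factorization_smoothPart k (n + i) p hp
  rw [h, if_neg hpk] at this
  exact this

theorem dvd_main (n k : ℕ) (_hk : 1 ≤ k)
    (hprod : ∏ i ∈ Finset.Icc 1 k, smoothPart k (n + i) = Nat.factorial k)
    (S : Finset ℕ) (hS : S ⊆ Finset.Icc 1 k) (hsm : ∀ i ∈ S, smoothPart k (n + i) = n + i) :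
    (∏ i ∈ S, (n + i)) ∣ Nat.lcmUpto k * ∏ q ∈ pairs S, (q.2 - q.1) := by
  have hpos : ∀ i ∈ S, n + i ≠ 0 := by
    intro i hi
    have := hS hi
    simp only [mem_Icc] at this
    omega
  have hq0 : ∀ q ∈ pairs S, q.2 - q.1 ≠ 0 := by
    intro q hq
    simp only [pairs, mem_filter] at hq
    omega
  rw [← Nat.factorization_prime_le_iff_dvd (Finset.prod_ne_zero_iff.2 hpos)
    (mul_ne_zero (Nat.lcmUpto_ne_zero k) (Finset.prod_ne_zero_iff.2 hq0))]
  intro p hp
  rw [Nat.factorization_mul (Nat.lcmUpto_ne_zero k) (Finset.prod_ne_zero_iff.2 hq0),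
    Nat.factorization_prod hpos, Nat.factorization_prod hq0]
  simp only [Finsupp.coe_add, Pi.add_apply, Finsupp.coe_finsetSum, Finset.sum_apply]
  rw [Nat.factorization_lcmUpto k hp]
  by_cases hpk : p ≤ k
  · apply sum_le n p (Nat.log p k) hp S
    intro i hi
    have := hS hi
    simp only [mem_Icc] at this
    exact factorization_le_log n k p i hp hpk this.1 this.2 hprod
  · rw [Finset.sum_eq_zero (fun i hi => factorization_eq_zero n k p i hp hpk (hsm i hi))]
    exact Nat.zero_le _

theorem result (n k : ℕ) (hk : 1 ≤ k) (_hkn : k ≤ n)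
    (hprod : (∏ i ∈ Finset.Icc 1 k,
      ∏ p ∈ Finset.filter Nat.Prime (Finset.range (k + 1)),
        p ^ (Nat.factorization (n + i) p)) = Nat.factorial k)
    (S : Finset ℕ) (hS : S ⊆ Finset.Icc 1 k)
    (hsm : ∀ i ∈ S, (∏ p ∈ Finset.filter Nat.Prime (Finset.range (k + 1)),
        p ^ (Nat.factorization (n + i) p)) = n + i) :
    ((∏ i ∈ S, (n + i)) ∣
      Nat.lcmUpto k * ∏ q ∈ (S ×ˢ S).filter (fun q => q.1 < q.2), (q.2 - q.1)) ∧
    (2 ≤ S.card → (n + 1) * (n + 2) ≤ (k - 1) * Nat.lcmUpto k) := by
  refine ⟨dvd_main n k hk hprod S hS hsm, ?_⟩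
  intro hcard
  obtain ⟨i, hi, j, hj, hij⟩ := Finset.one_lt_card.1 (show 1 < S.card by omega)
  have key : ∀ i j, i ∈ S → j ∈ S → i < j → (n + 1) * (n + 2) ≤ (k - 1) * Nat.lcmUpto k := by
    intro i j hi hj hij
    have hiI := hS hi
    have hjI := hS hj
    simp only [mem_Icc] at hiI hjI
    have h := dvd_main n k hk hprod {i, j} (by
      intro x hx
      simp only [mem_insert, mem_singleton] at hx
      rcases hx with rfl | rfl
      · exact hS hi
      · exact hS hj) (by
      intro x hx
      simp only [mem_insert, mem_singleton] at hx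
      rcases hx with rfl | rfl
      · exact hsm _ hi
      · exact hsm _ hj)
    rw [Finset.prod_pair hij.ne] at h
    have hpairs : pairs {i, j} = {(i, j)} := by
      ext ⟨x, y⟩
      simp only [pairs, mem_filter, mem_product, mem_insert, mem_singleton, Prod.mk.injEq]
      constructor
      · rintro ⟨⟨h1 | h1, h2 | h2⟩, h3⟩ <;> omega
      · rintro ⟨rfl, rfl⟩
        exact ⟨⟨Or.inl rfl, Or.inr rfl⟩, hij⟩
    rw [hpairs, Finset.prod_singleton] at h
    have hle := Nat.le_of_dvd (Nat.mul_pos (Nat.lcmUpto_pos k) (by simp only; omega)) h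
    calc (n + 1) * (n + 2) ≤ (n + i) * (n + j) := Nat.mul_le_mul (by omega) (by omega)
      _ ≤ Nat.lcmUpto k * (j - i) := hle
      _ ≤ Nat.lcmUpto k * (k - 1) := Nat.mul_le_mul_left _ (by omega)
      _ = (k - 1) * Nat.lcmUpto k := Nat.mul_comm _ _
  rcases lt_or_gt_of_ne hij with h | h
  · exact key i j hi hj h
  · exact key j i hj hi h

end Pool.Agent.Results.MP_4cb515_nt.DeficientProduct
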