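import Mathlib
import Pool.Agent.MP_4cb515_nt.Basic

set_option autoImplicit false

namespace Pool.Agent.Results.MP_4cb515_nt.DeficientProductLcms

open Finset Pool.Agent.MP_4cb515_nt

theorem card_multiples (n k p j : ℕ) (hp : p.Prime) (hpk : p ≤ k) (hj : 1 ≤ j)
    (hprod : ∏ i ∈ Finset.Icc 1 k, smoothPart k (n + i) = Nat.factorial k) :
    ((Finset.Icc 1 k).filter (fun i => p ^ j ∣ n + i)).card = k / p ^ j := by
  have hc := no_carry n k p j hp hpk hj hprod
  have hpos : 0 < p ^ j := pow_pos hp.pos j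
  have h1 : ((Finset.Icc 1 k).filter (fun i => p ^ j ∣ n + i)).card =
      ((Finset.Ioc n (n + k)).filter (fun m => p ^ j ∣ m)).card := by
    apply Finset.card_bij (fun i _ => n + i)
    · intro i hi
      simp only [mem_filter, mem_Icc, mem_Ioc] at hi ⊢
      exact ⟨⟨by omega, by omega⟩, hi.2⟩
    · intro i _ i' _ h
      omega
    · intro m hm
      simp only [mem_filter, mem_Ioc] at hm
      refine ⟨m - n, ?_, by omega⟩
      simp only [mem_filter, mem_Icc]
      refine ⟨⟨by omega, by omega⟩, ?_⟩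
      rw [show n + (m - n) = m by omega]
      exact hm.2
  have h2 : ((Finset.Ioc n (n + k)).filter (fun m => p ^ j ∣ m)).card + n / p ^ j =
      (n + k) / p ^ j := by
    have hA := Nat.Ioc_filter_dvd_card_eq_div (n + k) (p ^ j)
    have hB := Nat.Ioc_filter_dvd_card_eq_div n (p ^ j)
    have hU : (Finset.Ioc 0 (n + k)).filter (fun m => p ^ j ∣ m) =
        (Finset.Ioc 0 n).filter (fun m => p ^ j ∣ m) ∪
          (Finset.Ioc n (n + k)).filter (fun m => p ^ j ∣ m) := by
      ext m
      simp only [mem_filter, mem_union, mem_Ioc]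
      constructor
      · rintro ⟨⟨h1, h2⟩, h3⟩
        rcases Nat.lt_or_ge n m with h | h
        · exact Or.inr ⟨⟨h, h2⟩, h3⟩
        · exact Or.inl ⟨⟨h1, h⟩, h3⟩
      · rintro (⟨⟨h1, h2⟩, h3⟩ | ⟨⟨h1, h2⟩, h3⟩)
        · exact ⟨⟨h1, by omega⟩, h3⟩
        · exact ⟨⟨by omega, h2⟩, h3⟩
    have hdisj : Disjoint ((Finset.Ioc 0 n).filter (fun m => p ^ j ∣ m))
        ((Finset.Ioc n (n + k)).filter (fun m => p ^ j ∣ m)) := by
      rw [Finset.disjoint_left]
      intro m h1 h2
      simp only [mem_filter, mem_Ioc] at h1 h2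
      omega
    rw [hU, Finset.card_union_of_disjoint hdisj] at hA
    omega
  have h3 : (n + k) / p ^ j = n / p ^ j + k / p ^ j := by
    rw [Nat.add_div hpos, if_neg (by omega)]
    rfl
  omega

theorem factorization_eq_card (n k p i : ℕ) (hp : p.Prime) (hpk : p ≤ k)
    (hi1 : 1 ≤ i) (hik : i ≤ k)
    (hprod : ∏ i ∈ Finset.Icc 1 k, smoothPart k (n + i) = Nat.factorial k) :
    (n + i).factorization p =
      ((Finset.Icc 1 (Nat.log p k)).filter (fun j => p ^ j ∣ n + i)).card := by
  have hle := factorization_le_log n k p i hp hpk hi1 hik hprod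
  have : (Finset.Icc 1 (Nat.log p k)).filter (fun j => p ^ j ∣ n + i) =
      Finset.Icc 1 ((n + i).factorization p) := by
    ext j
    simp only [mem_filter, mem_Icc]
    rw [hp.pow_dvd_iff_le_factorization (by omega)]
    omega
  rw [this, Nat.card_Icc]
  omega

theorem log_div_eq_card (k p m : ℕ) (hp : p.Prime) (hm : 1 ≤ m) :
    Nat.log p (k / m) =
      ((Finset.Icc 1 (Nat.log p k)).filter (fun j => m ≤ k / p ^ j)).card := by
  have : (Finset.Icc 1 (Nat.log p k)).filter (fun j => m ≤ k / p ^ j) =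
      Finset.Icc 1 (Nat.log p (k / m)) := by
    ext j
    simp only [mem_filter, mem_Icc]
    have hiff : m ≤ k / p ^ j ↔ p ^ j ≤ k / m := by
      rw [Nat.le_div_iff_mul_le (pow_pos hp.pos j), Nat.le_div_iff_mul_le (by omega), mul_comm]
    rw [hiff]
    constructor
    · rintro ⟨⟨h1, h2⟩, h3⟩
      exact ⟨h1, Nat.le_log_of_pow_le hp.one_lt h3⟩
    · rintro ⟨h1, h2⟩
      have hkm : k / m ≠ 0 := by
        intro h0
        rw [h0, Nat.log_zero_right] at h2
        omega
      have h3 : p ^ j ≤ k / m := Nat.pow_le_of_le_log hkm h2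
      exact ⟨⟨h1, h2.trans (Nat.log_mono_right (Nat.div_le_self k m))⟩, h3⟩
  rw [this, Nat.card_Icc]
  omega

theorem sum_le (n k p : ℕ) (hp : p.Prime) (hpk : p ≤ k)
    (hprod : ∏ i ∈ Finset.Icc 1 k, smoothPart k (n + i) = Nat.factorial k)
    (S : Finset ℕ) (hS : S ⊆ Finset.Icc 1 k) :
    ∑ i ∈ S, (n + i).factorization p ≤ ∑ m ∈ Finset.Icc 1 S.card, Nat.log p (k / m) := by
  have h1 : ∑ i ∈ S, (n + i).factorization p =
      ∑ j ∈ Finset.Icc 1 (Nat.log p k), (S.filter (fun i => p ^ j ∣ n + i)).card := by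
    rw [Finset.sum_congr rfl (fun i hi => ?_)]
    · exact Finset.sum_card_bipartiteAbove_eq_sum_card_bipartiteBelow (fun i j => p ^ j ∣ n + i)
    · have := hS hi
      simp only [mem_Icc] at this
      exact factorization_eq_card n k p i hp hpk this.1 this.2 hprod
  have h2 : ∑ m ∈ Finset.Icc 1 S.card, Nat.log p (k / m) =
      ∑ j ∈ Finset.Icc 1 (Nat.log p k),
        ((Finset.Icc 1 S.card).filter (fun m => m ≤ k / p ^ j)).card := by
    rw [Finset.sum_congr rfl (fun m hm => ?_)]
    · exact Finset.sum_card_bipartiteAbove_eq_sum_card_bipartiteBelow (fun m j => m ≤ k / p ^ j)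
    · simp only [mem_Icc] at hm
      exact log_div_eq_card k p m hp hm.1
  rw [h1, h2]
  apply Finset.sum_le_sum
  intro j hj
  simp only [mem_Icc] at hj
  have h3 : ((Finset.Icc 1 S.card).filter (fun m => m ≤ k / p ^ j)).card =
      min S.card (k / p ^ j) := by
    have : (Finset.Icc 1 S.card).filter (fun m => m ≤ k / p ^ j) =
        Finset.Icc 1 (min S.card (k / p ^ j)) := by
      ext m
      simp only [mem_filter, mem_Icc, le_min_iff]
      tauto
    rw [this, Nat.card_Icc, Nat.add_sub_cancel]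
  rw [h3]
  apply le_min
  · exact Finset.card_filter_le _ _
  · rw [← card_multiples n k p j hp hpk hj.1 hprod]
    apply Finset.card_le_card
    exact Finset.filter_subset_filter _ hS

theorem result (n k : ℕ) (_hk : 1 ≤ k) (_hkn : k ≤ n)
    (hprod : (∏ i ∈ Finset.Icc 1 k,
      ∏ p ∈ Finset.filter Nat.Prime (Finset.range (k + 1)),
        p ^ (Nat.factorization (n + i) p)) = Nat.factorial k)
    (S : Finset ℕ) (hS : S ⊆ Finset.Icc 1 k)
    (hsm : ∀ i ∈ S, (∏ p ∈ Finset.filter Nat.Prime (Finset.range (k + 1)),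
        p ^ (Nat.factorization (n + i) p)) = n + i) :
    (∏ i ∈ S, (n + i)) ∣ ∏ m ∈ Finset.Icc 1 S.card, Nat.lcmUpto (k / m) := by
  have hpos : ∀ i ∈ S, n + i ≠ 0 := by
    intro i hi
    have := hS hi
    simp only [mem_Icc] at this
    omega
  have hl0 : ∀ m ∈ Finset.Icc 1 S.card, Nat.lcmUpto (k / m) ≠ 0 :=
    fun m _ => Nat.lcmUpto_ne_zero _
  rw [← Nat.factorization_prime_le_iff_dvd (Finset.prod_ne_zero_iff.2 hpos)
    (Finset.prod_ne_zero_iff.2 hl0)]
  intro p hp
  rw [Nat.factorization_prod hpos, Nat.factorization_prod hl0]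
  simp only [Finsupp.coe_finsetSum, Finset.sum_apply]
  rw [Finset.sum_congr rfl (fun m _ => Nat.factorization_lcmUpto (k / m) hp)]
  by_cases hpk : p ≤ k
  · exact sum_le n k p hp hpk hprod S hS
  · rw [Finset.sum_eq_zero]
    · exact Nat.zero_le _
    · intro i hi
      have := factorization_smoothPart k (n + i) p hp
      unfold smoothPart at this
      rw [hsm i hi, if_neg hpk] at this
      exact this

end Pool.Agent.Results.MP_4cb515_nt.DeficientProductLcms
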